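import Pool.Agent.helper55.GL.Spec

/-! Project gl: module NRM: the projective norm graph. -/

set_option autoImplicit false

namespace Pool.Agent.GL

open SimpleGraph

theorem NRM_quad {F : Type} [Field F] (A B C z₀ z₁ z₂ : F) (h0 : A * z₀ ^ 2 + B * z₀ + C = 0)
    (h1 : A * z₁ ^ 2 + B * z₁ + C = 0) (h2 : A * z₂ ^ 2 + B * z₂ + C = 0)
    (h01 : z₀ ≠ z₁) (h02 : z₀ ≠ z₂) (h12 : z₁ ≠ z₂) : A = 0 := by
  have e1 : A * (z₀ + z₁) + B = 0 := by
    have : (z₀ - z₁) * (A * (z₀ + z₁) + B) = 0 := by linear_combination h0 - h1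
    exact (mul_eq_zero.mp this).resolve_left (sub_ne_zero.mpr h01)
  have e2 : A * (z₀ + z₂) + B = 0 := by
    have : (z₀ - z₂) * (A * (z₀ + z₂) + B) = 0 := by linear_combination h0 - h2
    exact (mul_eq_zero.mp this).resolve_left (sub_ne_zero.mpr h02)
  have e3 : A * (z₁ - z₂) = 0 := by linear_combination e1 - e2
  exact (mul_eq_zero.mp e3).resolve_right (sub_ne_zero.mpr h12)

/-- three points `b` at given norm ratios from three points: contradiction. -/
theorem NRM_core {p : ℕ} [Fact p.Prime] {F : Type} [Field F] [CharP F p]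
    (a : Fin 3 → F) (b : Fin 3 → F) (α β : Fin 3 → F)
    (ha : Function.Injective a) (hb : Function.Injective b) (hα : ∀ i, α i ≠ 0)
    (hβ : ∀ i, β i ≠ 0) (h : ∀ i j, (a i + b j) ^ (p + 1) = α i * β j) : False := by
  have hp1 : p + 1 ≠ 0 := Nat.succ_ne_zero p
  have hne : ∀ i j, a i + b j ≠ 0 := by
    intro i j e
    have h1 := h i j
    rw [e, zero_pow hp1] at h1
    exact mul_ne_zero (hα i) (hβ j) h1.symm
  have h02 : a 0 - a 2 ≠ 0 := sub_ne_zero.mpr (fun e => by simpa using ha e)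
  have h12 : a 1 - a 2 ≠ 0 := sub_ne_zero.mpr (fun e => by simpa using ha e)
  have h01 : a 0 ≠ a 1 := fun e => by simpa using ha e
  set s₁ : F := (a 0 - a 2)⁻¹ with hs₁
  set s₂ : F := (a 1 - a 2)⁻¹ with hs₂
  have hs : s₁ - s₂ ≠ 0 := by
    intro e
    have h1 : s₁ = s₂ := sub_eq_zero.mp e
    have h2 : a 0 - a 2 = a 1 - a 2 := inv_injective h1
    exact h01 (sub_left_injective h2)
  let z : Fin 3 → F := fun j => (a 2 + b j)⁻¹
  have hz : Function.Injective z := by
    intro j j' hj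
    have h1 : a 2 + b j = a 2 + b j' := inv_injective hj
    exact hb (add_left_cancel h1)
  set γ₁ : F := α 0 / α 2 * s₁ ^ (p + 1) with hγ₁
  set γ₂ : F := α 1 / α 2 * s₂ ^ (p + 1) with hγ₂
  have key : ∀ (i : Fin 3) (j : Fin 3) (s : F), a i - a 2 ≠ 0 → s = (a i - a 2)⁻¹ →
      (z j + s) ^ (p + 1) = α i / α 2 * s ^ (p + 1) := by
    intro i j s hi hs
    have h1 : z j + s = (a i + b j) * (z j * s) := by
      have h2 := hne 2 j
      show (a 2 + b j)⁻¹ + s = (a i + b j) * ((a 2 + b j)⁻¹ * s)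
      rw [hs]
      field_simp
      ring
    rw [h1, mul_pow, mul_pow, h i j]
    have h3 : z j ^ (p + 1) = (α 2 * β j)⁻¹ := by
      show ((a 2 + b j)⁻¹) ^ (p + 1) = _
      rw [inv_pow, h 2 j]
    rw [h3]
    have h4 := hα 2
    have h5 := hβ j
    field_simp
  have e1 : ∀ j, z j ^ p * z j + s₁ * z j ^ p + s₁ ^ p * z j + s₁ ^ p * s₁ = γ₁ := by
    intro j
    rw [hγ₁, ← key 0 j s₁ h02 rfl, pow_succ, add_pow_char]
    ring
  have e2 : ∀ j, z j ^ p * z j + s₂ * z j ^ p + s₂ ^ p * z j + s₂ ^ p * s₂ = γ₂ := by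
    intro j
    rw [hγ₂, ← key 1 j s₂ h12 rfl, pow_succ, add_pow_char]
    ring
  have hp2 : 1 ≤ p := (Fact.out : p.Prime).one_lt.le
  set t : F := (s₁ - s₂) ^ (p - 1) with ht
  have htne : t ≠ 0 := pow_ne_zero _ hs
  have hts : t * (s₁ - s₂) = s₁ ^ p - s₂ ^ p := by
    rw [ht, ← pow_succ, Nat.sub_add_cancel hp2, sub_pow_char]
  set c : F := (γ₁ - γ₂ - (s₁ ^ p * s₁ - s₂ ^ p * s₂)) / (s₁ - s₂) with hc
  have hcs : c * (s₁ - s₂) = γ₁ - γ₂ - (s₁ ^ p * s₁ - s₂ ^ p * s₂) := div_mul_cancel₀ _ hs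
  have e3 : ∀ j, z j ^ p = -t * z j + c := by
    intro j
    have h1 : (s₁ - s₂) * (z j ^ p) = (s₁ - s₂) * (-t * z j + c) := by
      linear_combination e1 j - e2 j + z j * hts - hcs
    exact mul_left_cancel₀ hs h1
  have e4 : ∀ j, (-t) * z j ^ 2 + (c - s₁ * t + s₁ ^ p) * z j + (s₁ * c + s₁ ^ p * s₁ - γ₁) = 0 := by
    intro j
    have h1 := e1 j
    rw [e3 j] at h1
    linear_combination h1
  have h9 := NRM_quad (-t) _ _ (z 0) (z 1) (z 2) (e4 0) (e4 1) (e4 2)
    (fun e => by simpa using hz e) (fun e => by simpa using hz e) (fun e => by simpa using hz e)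
  exact htne (neg_eq_zero.mp h9)

theorem NRM : NRM_stmt := by
  intro p hp
  have _ := Fact.mk hp
  classical
  have _ : Fintype (GaloisField p 2) := Fintype.ofFinite _
  have hcard : Fintype.card (GaloisField p 2) = p ^ 2 := by
    rw [← Nat.card_eq_fintype_card]
    exact GaloisField.card p 2 two_ne_zero
  have hNpow : ∀ x : GaloisField p 2,
      algebraMap (ZMod p) (GaloisField p 2) (Algebra.norm (ZMod p) x) = x ^ (p + 1) := by
    intro x
    rw [FiniteField.algebraMap_norm_eq_pow, GaloisField.card p 2 two_ne_zero, Nat.card_zmod]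
    congr 1
    have h1 : p ^ 2 - 1 = (p + 1) * (p - 1) := by
      have := hp.one_lt
      obtain ⟨q, rfl⟩ : ∃ q, p = q + 1 := ⟨p - 1, by omega⟩
      have h2 : (q + 1) ^ 2 = (q + 1 + 1) * (q + 1 - 1) + 1 := by
        rw [Nat.add_sub_cancel]; ring
      omega
    rw [h1, Nat.mul_div_cancel _ (by have := hp.one_lt; omega)]
  have hN0 : ∀ x : GaloisField p 2, Algebra.norm (ZMod p) x = 0 ↔ x = 0 := by
    intro x
    exact Algebra.norm_eq_zero_iff
  refine ⟨GaloisField p 2 × (ZMod p)ˣ, GaloisField p 2 × (ZMod p)ˣ, inferInstance, inferInstance,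
    fun x y => Algebra.norm (ZMod p) (x.1 + y.1) = (x.2 : ZMod p) * (y.2 : ZMod p), ?_, ?_, ?_, ?_⟩
  · rw [Fintype.card_prod, hcard, ZMod.card_units]
  · rw [Fintype.card_prod, hcard, ZMod.card_units]
  · rintro ⟨a, α⟩
    have e : {y : GaloisField p 2 × (ZMod p)ˣ //
        Algebra.norm (ZMod p) (a + y.1) = (α : ZMod p) * (y.2 : ZMod p)} ≃
        {b : GaloisField p 2 // b ≠ -a} :=
      { toFun := fun y => ⟨y.1.1, by
          intro h
          have h1 := y.2
          rw [h, add_neg_cancel, Algebra.norm_zero] at h1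
          exact (mul_ne_zero α.ne_zero y.1.2.ne_zero) h1.symm⟩
        invFun := fun b => ⟨(b.1, α⁻¹ * Units.mk0 (Algebra.norm (ZMod p) (a + b.1)) (by
          intro h
          have h1 := (hN0 _).mp h
          exact b.2 (eq_neg_of_add_eq_zero_right h1))), by
          show Algebra.norm (ZMod p) (a + b.1) = (α : ZMod p) *
            (((α⁻¹ : (ZMod p)ˣ) : ZMod p) * Algebra.norm (ZMod p) (a + b.1))
          rw [Units.mul_inv_cancel_left]⟩
        left_inv := by
          rintro ⟨⟨b, β⟩, h⟩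
          apply Subtype.ext
          apply Prod.ext
          · rfl
          · apply Units.ext
            have h' : Algebra.norm (ZMod p) (a + b) = (α : ZMod p) * (β : ZMod p) := h
            show ((α⁻¹ : (ZMod p)ˣ) : ZMod p) * Algebra.norm (ZMod p) (a + b) = (β : ZMod p)
            rw [h', Units.inv_mul_cancel_left]
        right_inv := by
          rintro ⟨b, hb⟩
          rfl }
    show Nat.card {y : GaloisField p 2 × (ZMod p)ˣ //
        Algebra.norm (ZMod p) (a + y.1) = (α : ZMod p) * (y.2 : ZMod p)} = p ^ 2 - 1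
    rw [Nat.card_congr e, Nat.card_eq_fintype_card, Fintype.card_subtype_compl,
      Fintype.card_subtype_eq, hcard]
  · rintro ⟨f, g, hf, hg, h⟩
    have hpow : ∀ i j, ((f i).1 + (g j).1) ^ (p + 1) =
        algebraMap (ZMod p) (GaloisField p 2) ((f i).2 : ZMod p) *
        algebraMap (ZMod p) (GaloisField p 2) ((g j).2 : ZMod p) := by
      intro i j
      rw [← hNpow, h i j, map_mul]
    have hinj := (algebraMap (ZMod p) (GaloisField p 2)).injective
    have hne : ∀ u : (ZMod p)ˣ, algebraMap (ZMod p) (GaloisField p 2) (u : ZMod p) ≠ 0 := by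
      intro u hu
      exact u.ne_zero (hinj (by rw [hu, map_zero]))
    refine NRM_core (p := p) (fun i => (f i).1) (fun j => (g j).1)
      (fun i => algebraMap (ZMod p) (GaloisField p 2) ((f i).2 : ZMod p))
      (fun j => algebraMap (ZMod p) (GaloisField p 2) ((g j).2 : ZMod p)) ?_ ?_
      (fun i => hne _) (fun j => hne _) hpow
    · intro i i' hi
      apply hf
      apply Prod.ext
      · exact hi
      · apply Units.ext
        have h1 : Algebra.norm (ZMod p) ((f i).1 + (g 0).1) =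
          ((f i).2 : ZMod p) * ((g 0).2 : ZMod p) := h i 0
        have h2 : Algebra.norm (ZMod p) ((f i').1 + (g 0).1) =
          ((f i').2 : ZMod p) * ((g 0).2 : ZMod p) := h i' 0
        simp only at hi
        rw [hi, h2] at h1
        exact (mul_right_cancel₀ (g 0).2.ne_zero h1).symm
    · intro j j' hj
      apply hg
      apply Prod.ext
      · exact hj
      · apply Units.ext
        have h1 : Algebra.norm (ZMod p) ((f 0).1 + (g j).1) =
          ((f 0).2 : ZMod p) * ((g j).2 : ZMod p) := h 0 j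
        have h2 : Algebra.norm (ZMod p) ((f 0).1 + (g j').1) =
          ((f 0).2 : ZMod p) * ((g j').2 : ZMod p) := h 0 j'
        simp only at hj
        rw [hj, h2] at h1
        exact (mul_left_cancel₀ (f 0).2.ne_zero h1).symm

end Pool.Agent.GL
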